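import Mathlib

/-!
# Two-sided orbits of the permutation `2m ↦ 3m`, `4m ± 1 ↦ 3m ± 1` and their itineraries
-/

open Filter Topology

namespace GItin

/-- the permutation of the problem -/
def g (n : ℕ) : ℕ := if n % 2 = 0 then 3 * (n / 2) else (3 * n + 1) / 4

/-- the residue type: even, `1` modulo `4`, `3` modulo `4` -/
def letter (n : ℕ) : ℕ := if n % 2 = 0 then 0 else n % 4

/-- a two-sided orbit -/
def IsOrbit (x : ℤ → ℕ) : Prop := ∀ k, 0 < x k ∧ x (k + 1) = g (x k)

/-- the words of `m` successive residue types -/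
def words (x : ℤ → ℕ) (m : ℕ) : Set (Fin m → ℕ) :=
  Set.range fun k : ℤ => fun i : Fin m => letter (x (k + i))

/-- the inverse of `g` -/
def h (n : ℕ) : ℕ := if n % 3 = 0 then 2 * (n / 3) else if n % 3 = 1 then 4 * (n / 3) + 1
  else 4 * (n / 3) + 3

lemma g_inj : Function.Injective g := by
  intro a b hab
  unfold g at hab
  split_ifs at hab <;> omega

lemma g_h (n : ℕ) : g (h n) = n := by
  unfold g h
  split_ifs <;> omega

lemma g_pos {n : ℕ} (hn : 0 < n) : 0 < g n := by
  unfold g
  split_ifs <;> omega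

lemma h_pos {n : ℕ} (hn : 0 < n) : 0 < h n := by
  unfold h
  split_ifs <;> omega

lemma letter_lt (n : ℕ) : letter n < 4 := by
  unfold letter
  split_ifs <;> omega

lemma words_finite (x : ℤ → ℕ) (m : ℕ) : (words x m).Finite := by
  apply Set.Finite.subset (Set.Finite.pi' (fun _ : Fin m => Set.finite_lt_nat 4))
  rintro w ⟨k, rfl⟩ i
  exact letter_lt _

lemma step_mod (m a b : ℕ) (hab : a ≡ b [MOD 3 ^ m]) (hl : letter a = letter b) :
    g a ≡ g b [MOD 3 ^ (m + 1)] := by
  have hc : Nat.Coprime (3 ^ m) 2 := Nat.Coprime.pow_left m (by norm_num)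
  have hc4 : Nat.Coprime (3 ^ m) 4 := Nat.Coprime.pow_left m (by norm_num)
  have key : ∀ (c d s t e : ℕ), Nat.Coprime (3 ^ m) c → a = c * s + d → b = c * t + d →
      3 * s + e ≡ 3 * t + e [MOD 3 ^ (m + 1)] := by
    intro c d s t e h1 h2 h3
    rw [h2, h3] at hab
    have h4 := Nat.ModEq.add_right_cancel' d hab
    have h5 := Nat.ModEq.cancel_left_of_coprime h1 h4
    have h6 : 3 * s ≡ 3 * t [MOD 3 * 3 ^ m] := Nat.ModEq.mul_left' 3 h5
    rw [pow_succ, mul_comm (3 ^ m) 3]
    exact Nat.ModEq.add_right e h6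
  unfold letter at hl
  by_cases ha : a % 2 = 0
  · rw [if_pos ha] at hl
    have hb : b % 2 = 0 := by
      by_contra hb
      rw [if_neg hb] at hl
      omega
    have h1 : g a = 3 * (a / 2) + 0 := by unfold g; rw [if_pos ha]; omega
    have h2 : g b = 3 * (b / 2) + 0 := by unfold g; rw [if_pos hb]; omega
    rw [h1, h2]
    exact key 2 0 _ _ 0 hc (by omega) (by omega)
  · rw [if_neg ha] at hl
    have hb : ¬ b % 2 = 0 := by
      intro hb
      rw [if_pos hb] at hl
      omega
    rw [if_neg hb] at hl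
    rcases (by omega : a % 4 = 1 ∨ a % 4 = 3) with h4 | h4
    · have h1 : g a = 3 * (a / 4) + 1 := by unfold g; rw [if_neg ha]; omega
      have h2 : g b = 3 * (b / 4) + 1 := by unfold g; rw [if_neg hb]; omega
      rw [h1, h2]
      exact key 4 1 _ _ 1 hc4 (by omega) (by omega)
    · have h1 : g a = 3 * (a / 4) + 2 := by unfold g; rw [if_neg ha]; omega
      have h2 : g b = 3 * (b / 4) + 2 := by unfold g; rw [if_neg hb]; omega
      rw [h1, h2]
      exact key 4 3 _ _ 2 hc4 (by omega) (by omega)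

lemma word_mod {x : ℤ → ℕ} (hx : IsOrbit x) (k k' : ℤ) (m : ℕ)
    (hw : ∀ i : ℕ, i < m → letter (x (k + i)) = letter (x (k' + i))) :
    x (k + m) ≡ x (k' + m) [MOD 3 ^ m] := by
  induction m with
  | zero => simp [Nat.modEq_one]
  | succ m ih =>
    have h1 := ih (fun i hi => hw i (by omega))
    have h2 := step_mod m _ _ h1 (hw m (by omega))
    have e1 : x (k + (m + 1 : ℕ)) = g (x (k + m)) := by
      rw [← (hx (k + m)).2]
      push_cast
      ring_nf
    have e2 : x (k' + (m + 1 : ℕ)) = g (x (k' + m)) := by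
      rw [← (hx (k' + m)).2]
      push_cast
      ring_nf
    rw [e1, e2]
    exact h2

/-- the elements of an orbit up to `3 ^ m` are at most as many as its words of length `m` -/
theorem card_le {x : ℤ → ℕ} (hx : IsOrbit x) (m : ℕ) :
    (Set.range x ∩ Set.Icc 1 (3 ^ m)).ncard ≤ (words x m).ncard := by
  classical
  choose! κ hκ using (fun n (hn : n ∈ Set.range x) => hn)
  refine Set.ncard_le_ncard_of_injOn
    (fun n => fun i : Fin m => letter (x ((κ n - m) + i))) ?_ ?_ (words_finite x m)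
  · intro n _
    exact ⟨κ n - m, rfl⟩
  · intro a ha b hb hab
    have h1 : ∀ i : ℕ, i < m → letter (x (κ a - m + i)) = letter (x (κ b - m + i)) := by
      intro i hi
      have := congrFun hab ⟨i, hi⟩
      simpa using this
    have h2 := word_mod hx (κ a - m) (κ b - m) m h1
    rw [sub_add_cancel, sub_add_cancel, hκ a ha.1, hκ b hb.1] at h2
    obtain ⟨a1, a2⟩ := ha.2
    obtain ⟨b1, b2⟩ := hb.2
    rcases Nat.lt_or_ge a (3 ^ m) with h3 | h3
    · rcases Nat.lt_or_ge b (3 ^ m) with h4 | h4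
      · unfold Nat.ModEq at h2
        rwa [Nat.mod_eq_of_lt h3, Nat.mod_eq_of_lt h4] at h2
      · have h5 : b = 3 ^ m := le_antisymm b2 h4
        unfold Nat.ModEq at h2
        rw [h5, Nat.mod_self, Nat.mod_eq_of_lt h3] at h2
        omega
    · have h5 : a = 3 ^ m := le_antisymm a2 h3
      rcases Nat.lt_or_ge b (3 ^ m) with h4 | h4
      · unfold Nat.ModEq at h2
        rw [h5, Nat.mod_self, Nat.mod_eq_of_lt h4] at h2
        omega
      · rw [h5]
        exact (le_antisymm b2 h4).symm

end GItin
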