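import Mathlib
import Pool.Agent.Lib.GItin.Core

/-!
# Two-sided orbits: existence, uniqueness, injectivity, the bound for the number of small elements
-/

open Filter Topology

namespace GItin

/-- the two-sided orbit of `n` -/
def orb (n : ℕ) : ℤ → ℕ
  | Int.ofNat k => g^[k] n
  | Int.negSucc k => h^[k + 1] n

lemma orb_isOrbit {n : ℕ} (hn : 0 < n) : IsOrbit (orb n) := by
  intro k
  constructor
  · cases k with
    | ofNat k =>
      show 0 < g^[k] n
      induction k with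
      | zero => exact hn
      | succ k ih => rw [Function.iterate_succ_apply']; exact g_pos ih
    | negSucc k =>
      show 0 < h^[k + 1] n
      generalize k + 1 = j
      induction j with
      | zero => exact hn
      | succ k ih => rw [Function.iterate_succ_apply']; exact h_pos ih
  · cases k with
    | ofNat k =>
      show g^[k + 1] n = g (g^[k] n)
      exact Function.iterate_succ_apply' g k n
    | negSucc k =>
      cases k with
      | zero =>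
        show n = g (h n)
        exact (g_h n).symm
      | succ k =>
        have e : (Int.negSucc (k + 1) + 1 : ℤ) = Int.negSucc k := by
          rw [Int.negSucc_eq, Int.negSucc_eq]
          push_cast
          ring
        rw [e]
        show h^[k + 1] n = g (h^[k + 1 + 1] n)
        rw [Function.iterate_succ_apply' h (k + 1), g_h]

lemma orbit_unique {x y : ℤ → ℕ} (hx : IsOrbit x) (hy : IsOrbit y) (h0 : x 0 = y 0) : x = y := by
  funext k
  induction k using Int.induction_on with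
  | zero => exact h0
  | succ i ih => rw [(hx i).2, (hy i).2, ih]
  | pred i ih =>
    apply g_inj
    have h1 := (hx (-i - 1)).2
    have h2 := (hy (-i - 1)).2
    rw [sub_add_cancel] at h1 h2
    rw [← h1, ← h2, ih]

lemma iter {x : ℤ → ℕ} (hx : IsOrbit x) (k : ℤ) (j : ℕ) : x (k + j) = g^[j] (x k) := by
  induction j with
  | zero => simp
  | succ j ih =>
    rw [Function.iterate_succ_apply', ← ih, ← (hx (k + j)).2]
    push_cast
    ring_nf

lemma periodic_of_eq {x : ℤ → ℕ} (hx : IsOrbit x) {i j : ℤ} (hij : x i = x j) (k : ℤ) :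
    x (k + (j - i)) = x k := by
  refine Int.inductionOn' k i ?_ ?_ ?_
  · rw [add_sub_cancel, hij]
  · intro k _ ih
    have h1 := (hx (k + (j - i))).2
    rw [(hx k).2, ← ih, ← h1]
    congr 1
    ring
  · intro k _ ih
    apply g_inj
    have h1 := (hx (k - 1)).2
    rw [sub_add_cancel] at h1
    have h2 := (hx (k - 1 + (j - i))).2
    have e : k - 1 + (j - i) + 1 = k + (j - i) := by ring
    rw [e] at h2
    rw [← h1, ← h2, ih]

lemma inj_iff {x : ℤ → ℕ} (hx : IsOrbit x) :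
    Function.Injective x ↔ ∀ k : ℕ, 1 ≤ k → g^[k] (x 0) ≠ x 0 := by
  constructor
  · intro hi k hk he
    have h1 := iter hx 0 k
    rw [he] at h1
    have := hi h1
    omega
  · intro H i j hij
    by_contra hne
    rcases lt_or_gt_of_ne hne with hlt | hlt
    · obtain ⟨d, hd⟩ := Int.eq_ofNat_of_zero_le (by omega : 0 ≤ j - i)
      have h1 := periodic_of_eq hx hij 0
      rw [hd] at h1
      refine H d (by omega) ?_
      rw [← iter hx 0 d]
      simpa using h1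
    · obtain ⟨d, hd⟩ := Int.eq_ofNat_of_zero_le (by omega : 0 ≤ i - j)
      have h1 := periodic_of_eq hx hij.symm 0
      rw [hd] at h1
      refine H d (by omega) ?_
      rw [← iter hx 0 d]
      simpa using h1

/-- if an orbit takes the same value at `i < j` then all its values occur in `[i, j)` -/
lemma all_values {x : ℤ → ℕ} (hx : IsOrbit x) {i j : ℤ} (hlt : i < j) (hij : x i = x j) (k : ℤ) :
    ∃ l, i ≤ l ∧ l < j ∧ x l = x k := by
  have hper : Function.Periodic x (j - i) := periodic_of_eq hx hij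
  refine ⟨i + (k - i) % (j - i), ?_, ?_, ?_⟩
  · have := Int.emod_nonneg (k - i) (by omega : (j - i : ℤ) ≠ 0)
    omega
  · have := Int.emod_lt_of_pos (k - i) (by omega : 0 < j - i)
    omega
  · have h1 := hper.int_mul ((k - i) / (j - i)) (i + (k - i) % (j - i))
    rw [← h1]
    congr 1
    have := Int.mul_ediv_add_emod (k - i) (j - i)
    push_cast
    linarith

lemma fwd {x : ℤ → ℕ} (hx : IsOrbit x) (k : ℕ) : 2 ^ k * x k ≤ 3 ^ k * x 0 := by
  induction k with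
  | zero => simp
  | succ k ih =>
    have h1 : x ((k + 1 : ℕ) : ℤ) = g (x k) := by
      rw [← (hx k).2]
      push_cast
      rfl
    have h2 : 2 * g (x k) ≤ 3 * x k := by
      unfold g
      have := (hx k).1
      split_ifs <;> omega
    rw [h1, pow_succ, pow_succ]
    calc 2 ^ k * 2 * g (x k) = 2 ^ k * (2 * g (x k)) := by ring
      _ ≤ 2 ^ k * (3 * x k) := Nat.mul_le_mul_left _ h2
      _ = 3 * (2 ^ k * x k) := by ring
      _ ≤ 3 * (3 ^ k * x 0) := Nat.mul_le_mul_left _ ih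
      _ = 3 ^ k * 3 * x 0 := by ring

lemma bwd {x : ℤ → ℕ} (hx : IsOrbit x) (k : ℕ) :
    3 ^ k * (x (-(k : ℤ)) + 1) ≤ 4 ^ k * (x 0 + 1) := by
  induction k with
  | zero => simp
  | succ k ih =>
    have h1 : g (x (-((k + 1 : ℕ) : ℤ))) = x (-(k : ℤ)) := by
      rw [← (hx _).2]
      push_cast
      ring_nf
    have h2 : 3 * (x (-((k + 1 : ℕ) : ℤ)) + 1) ≤ 4 * (x (-(k : ℤ)) + 1) := by
      rw [← h1]
      unfold g
      split_ifs <;> omega
    rw [pow_succ, pow_succ]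
    calc 3 ^ k * 3 * (x (-((k + 1 : ℕ) : ℤ)) + 1) = 3 ^ k * (3 * (x (-((k + 1 : ℕ) : ℤ)) + 1)) := by
          ring
      _ ≤ 3 ^ k * (4 * (x (-(k : ℤ)) + 1)) := Nat.mul_le_mul_left _ h2
      _ = 4 * (3 ^ k * (x (-(k : ℤ)) + 1)) := by ring
      _ ≤ 4 * (4 ^ k * (x 0 + 1)) := Nat.mul_le_mul_left _ ih
      _ = _ := by ring

lemma pow_cmp1 {k j : ℕ} (hk : 10 * k ≤ 27 * j) : 3 ^ k ≤ 3 ^ j * 2 ^ k := by
  have h1 : (3 ^ k) ^ 10 ≤ (3 ^ j * 2 ^ k) ^ 10 := by
    obtain ⟨d, hd⟩ := Nat.exists_eq_add_of_le hk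
    have h2 : (3 : ℕ) ^ 27 ≤ 3 ^ 10 * 2 ^ 27 := by norm_num
    have h3 : ((3 : ℕ) ^ 27) ^ j ≤ (3 ^ 10 * 2 ^ 27) ^ j := Nat.pow_le_pow_left h2 j
    have h4 : (3 : ℕ) ^ (10 * k) * 3 ^ d ≤ 3 ^ (10 * j) * 2 ^ (10 * k) * 2 ^ d := by
      calc (3 : ℕ) ^ (10 * k) * 3 ^ d = 3 ^ (27 * j) := by rw [← pow_add, ← hd]
        _ = (3 ^ 27) ^ j := by rw [pow_mul]
        _ ≤ (3 ^ 10 * 2 ^ 27) ^ j := h3
        _ = 3 ^ (10 * j) * 2 ^ (27 * j) := by rw [mul_pow, ← pow_mul, ← pow_mul]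
        _ = 3 ^ (10 * j) * 2 ^ (10 * k) * 2 ^ d := by rw [hd, pow_add]; ring
    have h5 : (2 : ℕ) ^ d ≤ 3 ^ d := Nat.pow_le_pow_left (by norm_num) d
    have h6 : (3 : ℕ) ^ (10 * k) * 3 ^ d ≤ 3 ^ (10 * j) * 2 ^ (10 * k) * 3 ^ d :=
      h4.trans (Nat.mul_le_mul_left _ h5)
    have h7 := Nat.le_of_mul_le_mul_right h6 (by positivity)
    calc (3 ^ k) ^ 10 = 3 ^ (10 * k) := by rw [← pow_mul, mul_comm]
      _ ≤ 3 ^ (10 * j) * 2 ^ (10 * k) := h7
      _ = (3 ^ j * 2 ^ k) ^ 10 := by rw [mul_pow, ← pow_mul, ← pow_mul, mul_comm j, mul_comm k]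
  exact (Nat.pow_le_pow_iff_left (by norm_num)).1 h1

lemma pow_cmp2 {k j : ℕ} (hk : 10 * k ≤ 38 * j) : 4 ^ k ≤ 3 ^ j * 3 ^ k := by
  have h1 : (4 ^ k) ^ 10 ≤ (3 ^ j * 3 ^ k) ^ 10 := by
    obtain ⟨d, hd⟩ := Nat.exists_eq_add_of_le hk
    have h2 : (4 : ℕ) ^ 38 ≤ 3 ^ 10 * 3 ^ 38 := by norm_num
    have h3 : ((4 : ℕ) ^ 38) ^ j ≤ (3 ^ 10 * 3 ^ 38) ^ j := Nat.pow_le_pow_left h2 j
    have h4 : (4 : ℕ) ^ (10 * k) * 4 ^ d ≤ 3 ^ (10 * j) * 3 ^ (10 * k) * 3 ^ d := by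
      calc (4 : ℕ) ^ (10 * k) * 4 ^ d = 4 ^ (38 * j) := by rw [← pow_add, ← hd]
        _ = (4 ^ 38) ^ j := by rw [pow_mul]
        _ ≤ (3 ^ 10 * 3 ^ 38) ^ j := h3
        _ = 3 ^ (10 * j) * 3 ^ (38 * j) := by rw [mul_pow, ← pow_mul, ← pow_mul]
        _ = 3 ^ (10 * j) * 3 ^ (10 * k) * 3 ^ d := by rw [hd, pow_add]; ring
    have h5 : (3 : ℕ) ^ d ≤ 4 ^ d := Nat.pow_le_pow_left (by norm_num) d
    have h6 : (4 : ℕ) ^ (10 * k) * 4 ^ d ≤ 3 ^ (10 * j) * 3 ^ (10 * k) * 4 ^ d :=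
      h4.trans (Nat.mul_le_mul_left _ h5)
    have h7 := Nat.le_of_mul_le_mul_right h6 (by positivity)
    calc (4 ^ k) ^ 10 = 4 ^ (10 * k) := by rw [← pow_mul, mul_comm]
      _ ≤ 3 ^ (10 * j) * 3 ^ (10 * k) := h7
      _ = (3 ^ j * 3 ^ k) ^ 10 := by rw [mul_pow, ← pow_mul, ← pow_mul, mul_comm j, mul_comm k]
  exact (Nat.pow_le_pow_iff_left (by norm_num)).1 h1

/-- an orbit either lies in `[1, 3 ^ m]` or has many elements there -/
theorem many_small {x : ℤ → ℕ} (hx : IsOrbit x) (c m : ℕ) (hc : x 0 < 3 ^ c) :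
    Set.range x ⊆ Set.Icc 1 (3 ^ m) ∨
      65 * m ≤ 10 * (Set.range x ∩ Set.Icc 1 (3 ^ m)).ncard + 65 * c + 8 := by
  classical
  rcases Nat.lt_or_ge m c with hmc | hmc
  · right
    omega
  obtain ⟨j, rfl⟩ := Nat.exists_eq_add_of_le hmc
  set a := 27 * j / 10 with ha
  set b := 38 * j / 10 with hb
  have hf : ∀ k : ℕ, k ≤ a → x k ≤ 3 ^ (c + j) := by
    intro k hk
    have h1 := fwd hx k
    have h2 : 3 ^ k ≤ 3 ^ j * 2 ^ k := pow_cmp1 (by omega)
    have h3 : 2 ^ k * x k ≤ 2 ^ k * 3 ^ (c + j) := by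
      calc 2 ^ k * x k ≤ 3 ^ k * x 0 := h1
        _ ≤ (3 ^ j * 2 ^ k) * 3 ^ c := Nat.mul_le_mul h2 hc.le
        _ = 2 ^ k * 3 ^ (c + j) := by rw [pow_add]; ring
    exact Nat.le_of_mul_le_mul_left h3 (by positivity)
  have hbk : ∀ k : ℕ, k ≤ b → x (-(k : ℤ)) ≤ 3 ^ (c + j) := by
    intro k hk
    have h1 := bwd hx k
    have h2 : 4 ^ k ≤ 3 ^ j * 3 ^ k := pow_cmp2 (by omega)
    have h3 : 3 ^ k * (x (-(k : ℤ)) + 1) ≤ 3 ^ k * 3 ^ (c + j) := by
      calc 3 ^ k * (x (-(k : ℤ)) + 1) ≤ 4 ^ k * (x 0 + 1) := h1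
        _ ≤ (3 ^ j * 3 ^ k) * 3 ^ c := Nat.mul_le_mul h2 hc
        _ = 3 ^ k * 3 ^ (c + j) := by rw [pow_add]; ring
    have h4 := Nat.le_of_mul_le_mul_left h3 (by positivity)
    omega
  have hsm : ∀ k : ℤ, -(b : ℤ) ≤ k → k ≤ a → x k ≤ 3 ^ (c + j) := by
    intro k h1 h2
    rcases le_total 0 k with h3 | h3
    · obtain ⟨d, rfl⟩ := Int.eq_ofNat_of_zero_le h3
      exact hf d (by omega)
    · obtain ⟨d, hd⟩ := Int.eq_ofNat_of_zero_le (by omega : 0 ≤ -k)
      have : k = -(d : ℤ) := by omega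
      rw [this]
      exact hbk d (by omega)
  by_cases hinj : Set.InjOn x (Set.Icc (-(b : ℤ)) a)
  · right
    have h1 : (x '' (Set.Icc (-(b : ℤ)) a)).ncard ≤
        (Set.range x ∩ Set.Icc 1 (3 ^ (c + j))).ncard := by
      apply Set.ncard_le_ncard
      · rintro _ ⟨k, hk, rfl⟩
        exact ⟨⟨k, rfl⟩, (hx k).1, hsm k hk.1 hk.2⟩
      · exact (Set.finite_Icc 1 (3 ^ (c + j))).subset Set.inter_subset_right
    rw [hinj.ncard_image] at h1
    have h2 : (Set.Icc (-(b : ℤ)) a).ncard = a + b + 1 := by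
      rw [← Finset.coe_Icc, Set.ncard_coe_finset, Int.card_Icc]
      omega
    rw [h2] at h1
    omega
  · left
    unfold Set.InjOn at hinj
    push Not at hinj
    obtain ⟨i, hi, i', hi', he, hne⟩ := hinj
    rintro _ ⟨k, rfl⟩
    refine ⟨(hx k).1, ?_⟩
    rcases lt_or_gt_of_ne hne with hlt | hlt
    · obtain ⟨l, h1, h2, h3⟩ := all_values hx hlt he k
      rw [← h3]
      exact hsm l (le_trans hi.1 h1) (le_trans h2.le hi'.2)
    · obtain ⟨l, h1, h2, h3⟩ := all_values hx hlt he.symm k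
      rw [← h3]
      exact hsm l (le_trans hi'.1 h1) (le_trans h2.le hi.2)

end GItin
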