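import Mathlib
import Pool.Agent.Lib.GItin.Orb

/-!
# Logarithmic size along an orbit
-/

open Filter Topology Finset

namespace GItin

lemma logstep {n : ℕ} (hn : 0 < n) :
    |Real.log (g n) - Real.log n - (if Even n then Real.log (3 / 2) else Real.log (3 / 4))|
      ≤ 1 / (n : ℝ) := by
  have hn0 : (0 : ℝ) < n := by exact_mod_cast hn
  have hn1 : (1 : ℝ) ≤ n := by exact_mod_cast hn
  by_cases he : Even n
  · rw [if_pos he]
    have h1 : 2 * g n = 3 * n := by
      have := Nat.even_iff.1 he
      unfold g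
      rw [if_pos this]
      omega
    have h2 : (g n : ℝ) = 3 / 2 * n := by
      have : (2 : ℝ) * g n = 3 * n := by exact_mod_cast h1
      linarith
    rw [h2, Real.log_mul (by norm_num) hn0.ne']
    have e : Real.log (3 / 2) + Real.log n - Real.log n - Real.log (3 / 2) = 0 := by ring
    rw [e, abs_zero]
    positivity
  · rw [if_neg he]
    have hg0 : (0 : ℝ) < g n := by exact_mod_cast g_pos hn
    have h1 : 4 * g n ≤ 3 * n + 1 ∧ 3 * n ≤ 4 * g n + 1 := by
      have := Nat.odd_iff.1 (Nat.not_even_iff_odd.1 he)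
      unfold g
      rw [if_neg (by omega)]
      omega
    have h2 : (4 : ℝ) * g n ≤ 3 * n + 1 := by exact_mod_cast h1.1
    have h3 : (3 : ℝ) * n ≤ 4 * g n + 1 := by exact_mod_cast h1.2
    have e : Real.log (g n) - Real.log n - Real.log (3 / 4) = Real.log (4 * g n / (3 * n)) := by
      have e1 : Real.log (4 * g n / (3 * n)) =
          Real.log 4 + Real.log (g n) - (Real.log 3 + Real.log n) := by
        rw [Real.log_div (by positivity) (by positivity), Real.log_mul (by norm_num) hg0.ne',
          Real.log_mul (by norm_num) hn0.ne']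
      have e2 : Real.log (3 / 4) = Real.log 3 - Real.log 4 :=
        Real.log_div (by norm_num) (by norm_num)
      rw [e1, e2]
      ring
    rw [e, abs_le]
    have hy : (0 : ℝ) < 4 * g n / (3 * n) := by positivity
    constructor
    · have h4 := Real.one_sub_inv_le_log_of_pos hy
      have h5 : -(1 / (n : ℝ)) ≤ 1 - (4 * (g n : ℝ) / (3 * n))⁻¹ := by
        rw [inv_div, neg_le_sub_iff_le_add, div_le_iff₀ (by positivity)]
        have h6 : (2 : ℝ) * n ≤ 4 * g n := by linarith
        have h7 : (1 : ℝ) / n * (4 * g n) ≥ 1 / n * (2 * n) :=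
          mul_le_mul_of_nonneg_left h6 (by positivity)
        have h8 : (1 : ℝ) / n * (2 * n) = 2 := by field_simp
        rw [add_mul]
        linarith
      linarith
    · have h4 := Real.log_le_sub_one_of_pos hy
      have h5 : 4 * (g n : ℝ) / (3 * n) - 1 ≤ 1 / n := by
        rw [sub_le_iff_le_add, div_le_iff₀ (by positivity), add_mul]
        have h8 : (1 : ℝ) / n * (3 * n) = 3 := by field_simp
        rw [h8]
        linarith
      linarith

/-- the logarithmic size of a step -/
noncomputable def cc (n : ℕ) : ℝ := if letter n = 0 then Real.log (3 / 2) else Real.log (3 / 4)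

lemma letter_zero (n : ℕ) : letter n = 0 ↔ Even n := by
  unfold letter
  rw [Nat.even_iff]
  split_ifs with h
  · simp [h]
  · constructor
    · intro h1
      omega
    · intro h1
      exact absurd h1 h

lemma cc_eq (n : ℕ) : cc n = if Even n then Real.log (3 / 2) else Real.log (3 / 4) := by
  unfold cc
  by_cases h : Even n
  · rw [if_pos h, if_pos ((letter_zero n).2 h)]
  · rw [if_neg h, if_neg (fun h1 => h ((letter_zero n).1 h1))]

lemma cc_ge (n : ℕ) : Real.log (3 / 4) ≤ cc n := by
  unfold cc
  split_ifs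
  · exact Real.log_le_log (by norm_num) (by norm_num)
  · exact le_rfl

lemma cc_le (n : ℕ) : cc n ≤ Real.log (3 / 2) := by
  unfold cc
  split_ifs
  · exact le_rfl
  · exact Real.log_le_log (by norm_num) (by norm_num)

/-- the logarithmic sum over a window -/
noncomputable def sg (x : ℤ → ℕ) (k : ℤ) (n : ℕ) : ℝ := ∑ i ∈ range n, cc (x (k + i))

lemma sg_add (x : ℤ → ℕ) (k : ℤ) (a b : ℕ) : sg x k (a + b) = sg x k a + sg x (k + a) b := by
  unfold sg
  rw [sum_range_add]
  congr 1
  apply sum_congr rfl
  intro i _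
  congr 2
  push_cast
  ring

lemma sg_congr {x : ℤ → ℕ} {k l : ℤ} {n : ℕ}
    (h : ∀ i : ℕ, i < n → letter (x (l + i)) = letter (x (k + i))) : sg x l n = sg x k n := by
  unfold sg
  apply sum_congr rfl
  intro i hi
  unfold cc
  rw [h i (mem_range.1 hi)]

lemma telescope {x : ℤ → ℕ} (hx : IsOrbit x) (k : ℤ) (n : ℕ) :
    |Real.log (x (k + n)) - Real.log (x k) - sg x k n| ≤ ∑ i ∈ range n, 1 / (x (k + i) : ℝ) := by
  induction n with
  | zero => simp [sg]
  | succ n ih =>
    have e : x (k + (n + 1 : ℕ)) = g (x (k + n)) := by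
      rw [← (hx (k + n)).2]
      push_cast
      ring_nf
    have h1 := logstep (hx (k + n)).1
    rw [← cc_eq] at h1
    have e2 : sg x k (n + 1) = sg x k n + cc (x (k + n)) := by
      unfold sg
      rw [sum_range_succ]
    rw [e, e2, sum_range_succ]
    have e3 : Real.log (g (x (k + n))) - Real.log (x k) - (sg x k n + cc (x (k + n))) =
        (Real.log (x (k + n)) - Real.log (x k) - sg x k n) +
        (Real.log (g (x (k + n))) - Real.log (x (k + n)) - cc (x (k + n))) := by ring
    rw [e3]
    exact (abs_add_le _ _).trans (add_le_add ih h1)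

lemma err_bd {x : ℤ → ℕ} (hx : IsOrbit x) (hi : Function.Injective x) (B : ℕ) (hB : 0 < B)
    (k : ℤ) (n : ℕ) :
    |Real.log (x (k + n)) - Real.log (x k) - sg x k n| ≤ (n : ℝ) / B + B := by
  refine (telescope hx k n).trans ?_
  have hB0 : (0 : ℝ) < B := by exact_mod_cast hB
  have h1 : ∀ i ∈ range n, 1 / (x (k + i) : ℝ) ≤ 1 / B + (if x (k + i) ≤ B then 1 else 0) := by
    intro i _
    have hp : (1 : ℝ) ≤ x (k + i) := by exact_mod_cast (hx _).1
    split_ifs with h
    · have : 1 / (x (k + i) : ℝ) ≤ 1 := by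
        rw [div_le_one (by linarith)]
        exact hp
      have h3 : 0 < 1 / (B : ℝ) := by positivity
      linarith
    · rw [add_zero]
      apply one_div_le_one_div_of_le hB0
      exact_mod_cast (not_le.1 h).le
  refine (sum_le_sum h1).trans ?_
  rw [sum_add_distrib, sum_const, card_range, nsmul_eq_mul, sum_boole]
  have h2 : ((range n).filter (fun i : ℕ => x (k + i) ≤ B)).card ≤ (Icc 1 B).card := by
    apply card_le_card_of_injOn (fun i : ℕ => x (k + i))
    · intro i hi'
      have := (mem_filter.1 (mem_coe.1 hi')).2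
      exact mem_coe.2 (mem_Icc.2 ⟨(hx _).1, this⟩)
    · intro a _ b _ hab
      have := hi hab
      omega
  rw [Nat.card_Icc, Nat.add_sub_cancel] at h2
  have h3 : ((((range n).filter (fun i : ℕ => x (k + i) ≤ B)).card : ℕ) : ℝ) ≤ B := by
    exact_mod_cast h2
  have e : (n : ℝ) * (1 / B) = n / B := by ring
  rw [e]
  linarith

lemma count_small {x : ℤ → ℕ} (hx : IsOrbit x) (hi : Function.Injective x) (a b M : ℕ)
    (hf : ∀ N : ℕ, N ≤ a → x N ≤ M) (hb : ∀ N : ℕ, N ≤ b → x (-(N : ℤ)) ≤ M) :
    a + b + 1 ≤ (Set.range x ∩ Set.Icc 1 M).ncard := by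
  have h1 : (x '' (Set.Icc (-(b : ℤ)) a)).ncard ≤ (Set.range x ∩ Set.Icc 1 M).ncard := by
    apply Set.ncard_le_ncard
    · rintro _ ⟨k, hk, rfl⟩
      refine ⟨⟨k, rfl⟩, (hx k).1, ?_⟩
      rcases le_total 0 k with h3 | h3
      · obtain ⟨d, rfl⟩ := Int.eq_ofNat_of_zero_le h3
        exact hf d (by have := hk.2; omega)
      · obtain ⟨d, hd⟩ := Int.eq_ofNat_of_zero_le (by omega : 0 ≤ -k)
        have e : k = -(d : ℤ) := by omega
        rw [e]
        exact hb d (by have := hk.1; omega)
    · exact (Set.finite_Icc 1 M).subset Set.inter_subset_right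
  rw [hi.injOn.ncard_image] at h1
  have h2 : (Set.Icc (-(b : ℤ)) a).ncard = a + b + 1 := by
    rw [← Finset.coe_Icc, Set.ncard_coe_finset, Int.card_Icc]
    omega
  omega

end GItin
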