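import Mathlib
import Pool.Agent.Lib.GItin.Step

/-!
# Frequencies of the even terms in both directions of an infinite orbit
-/

open Filter Topology Finset

namespace GItin

/-- the number of the even terms among the first `N` terms -/
def fwdEven (x : ℤ → ℕ) (N : ℕ) : ℕ := ((range N).filter (fun i : ℕ => Even (x i))).card

/-- the number of the even terms among the last `N` terms before `x 0` -/
def bwdEven (x : ℤ → ℕ) (N : ℕ) : ℕ :=
  ((range N).filter (fun i : ℕ => Even (x (-(i : ℤ) - 1)))).card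

lemma cc_eq2 (n : ℕ) : cc n = (if Even n then Real.log 2 else 0) - Real.log (4 / 3) := by
  rw [cc_eq]
  have l1 : Real.log (3 / 2) = Real.log 2 - Real.log (4 / 3) := by
    rw [← Real.log_div (by norm_num) (by norm_num)]
    norm_num
  have l2 : Real.log (3 / 4) = - Real.log (4 / 3) := by
    rw [← Real.log_inv]
    norm_num
  split_ifs
  · exact l1
  · rw [l2, zero_sub]

lemma sg_fwd (x : ℤ → ℕ) (N : ℕ) :
    sg x 0 N = (fwdEven x N : ℝ) * Real.log 2 - N * Real.log (4 / 3) := by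
  induction N with
  | zero => simp [sg, fwdEven]
  | succ N ih =>
    have e : sg x 0 (N + 1) = sg x 0 N + cc (x N) := by
      unfold sg
      rw [sum_range_succ, zero_add]
    rw [e, ih, cc_eq2]
    unfold fwdEven
    rw [range_add_one, filter_insert]
    by_cases hP : Even (x (N : ℤ))
    · rw [if_pos hP, if_pos hP, card_insert_of_notMem (by simp)]
      push_cast
      ring
    · rw [if_neg hP, if_neg hP]
      push_cast
      ring

lemma sg_bwd (x : ℤ → ℕ) (N : ℕ) :
    sg x (-(N : ℤ)) N = (bwdEven x N : ℝ) * Real.log 2 - N * Real.log (4 / 3) := by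
  induction N with
  | zero => simp [sg, bwdEven]
  | succ N ih =>
    have e : sg x (-((N + 1 : ℕ) : ℤ)) (N + 1) = cc (x (-(N : ℤ) - 1)) + sg x (-(N : ℤ)) N := by
      have e0 : (-((N + 1 : ℕ) : ℤ)) = -(N : ℤ) - 1 := by push_cast; ring
      rw [e0, add_comm N 1, sg_add]
      congr 1
      · unfold sg
        rw [sum_range_one]
        congr 2
        push_cast
        ring
      · congr 1
        push_cast
        ring
    rw [e, ih, cc_eq2]
    unfold bwdEven
    rw [range_add_one, filter_insert]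
    by_cases hP : Even (x (-(N : ℤ) - 1))
    · rw [if_pos hP, if_pos hP, card_insert_of_notMem (by simp)]
      push_cast
      ring
    · rw [if_neg hP, if_neg hP]
      push_cast
      ring

lemma log_nonneg' {x : ℤ → ℕ} (hx : IsOrbit x) (k : ℤ) : 0 ≤ Real.log (x k) := by
  have : (1 : ℝ) ≤ x k := by exact_mod_cast (hx k).1
  exact Real.log_nonneg this

/-- `K + N / B ≤ δ N` for large `N` -/
lemma ev_small (K δ : ℝ) (hδ : 0 < δ) : ∃ B : ℕ, 0 < B ∧
    ∀ᶠ N : ℕ in atTop, K + ((N : ℝ) / B + B) ≤ δ * N := by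
  obtain ⟨B, hB⟩ := exists_nat_gt (2 / δ)
  have hB0 : (0 : ℝ) < B := lt_trans (by positivity) hB
  refine ⟨B, by exact_mod_cast hB0, ?_⟩
  obtain ⟨n0, hn0⟩ := exists_nat_gt (2 / δ * (K + B))
  filter_upwards [eventually_ge_atTop n0] with N hN
  have h1 : (n0 : ℝ) ≤ N := by exact_mod_cast hN
  have h2 : (N : ℝ) / B ≤ δ / 2 * N := by
    rw [div_le_iff₀ hB0]
    have h6 : 1 ≤ δ / 2 * B := by
      have := (div_lt_iff₀ hδ).1 hB
      linarith
    have : (0 : ℝ) ≤ N := Nat.cast_nonneg N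
    nlinarith
  have h3 : K + B ≤ δ / 2 * N := by
    have h4 : 2 / δ * (K + B) ≤ N := by linarith
    have := mul_le_mul_of_nonneg_left h4 (show 0 ≤ δ / 2 by positivity)
    have e : δ / 2 * (2 / δ * (K + B)) = K + B := by
      field_simp
    linarith
  linarith

lemma fwd_err {x : ℤ → ℕ} (hx : IsOrbit x) (hi : Function.Injective x) (δ : ℝ) (hδ : 0 < δ) :
    ∀ᶠ N : ℕ in atTop, |Real.log (x N) -
      ((fwdEven x N : ℝ) * Real.log 2 - N * Real.log (4 / 3))| ≤ δ * N := by
  obtain ⟨B, hB, hev⟩ := ev_small (Real.log (x 0)) δ hδ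
  filter_upwards [hev] with N hN
  have h1 := err_bd hx hi B hB 0 N
  rw [zero_add, sg_fwd] at h1
  have h0 := log_nonneg' hx 0
  rw [abs_le] at h1 ⊢
  constructor <;> linarith [h1.1, h1.2]

lemma bwd_err {x : ℤ → ℕ} (hx : IsOrbit x) (hi : Function.Injective x) (δ : ℝ) (hδ : 0 < δ) :
    ∀ᶠ N : ℕ in atTop, |Real.log (x (-(N : ℤ))) -
      (N * Real.log (4 / 3) - (bwdEven x N : ℝ) * Real.log 2)| ≤ δ * N := by
  obtain ⟨B, hB, hev⟩ := ev_small (Real.log (x 0)) δ hδ
  filter_upwards [hev] with N hN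
  have h1 := err_bd hx hi B hB (-(N : ℤ)) N
  rw [neg_add_cancel, sg_bwd] at h1
  have h0 := log_nonneg' hx 0
  rw [abs_le] at h1 ⊢
  constructor <;> linarith [h1.1, h1.2]

/-- all terms up to the index `A m` are at most `3 ^ m` -/
lemma small_terms (y : ℕ → ℕ) (hy : ∀ i, 0 < y i) (l A : ℝ) (hA : 0 ≤ A) (hl0 : 0 ≤ l)
    (hl : ∀ δ : ℝ, 0 < δ → ∀ᶠ N : ℕ in atTop, Real.log (y N) ≤ (l + δ) * N)
    (hAl : A * l < Real.log 3) :
    ∀ᶠ m : ℕ in atTop, ∀ N : ℕ, (N : ℝ) ≤ A * m → y N ≤ 3 ^ m := by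
  set δ : ℝ := (Real.log 3 - A * l) / (A + 1) with hδ
  have hδ0 : 0 < δ := div_pos (by linarith) (by linarith)
  have h1 : A * (l + δ) ≤ Real.log 3 := by
    have e : A * δ + δ = Real.log 3 - A * l := by
      rw [hδ]
      field_simp
    linarith
  obtain ⟨N0, hN0⟩ := eventually_atTop.1 (hl δ hδ0)
  filter_upwards [eventually_ge_atTop (∑ i ∈ range N0, y i)] with m hm N hN
  rcases lt_or_ge N N0 with h2 | h2
  · have h3 : y N ≤ ∑ i ∈ range N0, y i :=
      single_le_sum (f := y) (fun i _ => Nat.zero_le _) (mem_range.2 h2)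
    exact (h3.trans hm).trans (Nat.lt_pow_self (by norm_num)).le
  · have h3 := hN0 N h2
    have h5 : Real.log (y N) ≤ m * Real.log 3 := by
      calc Real.log (y N) ≤ (l + δ) * N := h3
        _ ≤ (l + δ) * (A * m) := mul_le_mul_of_nonneg_left hN (by linarith)
        _ = A * (l + δ) * m := by ring
        _ ≤ Real.log 3 * m := mul_le_mul_of_nonneg_right h1 (Nat.cast_nonneg m)
        _ = m * Real.log 3 := by ring
    rw [← Real.log_pow] at h5
    have hyp : (0 : ℝ) < y N := by exact_mod_cast hy N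
    have h6 := (Real.log_le_log_iff hyp (by positivity)).1 h5
    exact_mod_cast h6

/-- unconditional bounds for the frequencies in both directions -/
theorem freq_bounds {x : ℤ → ℕ} (hx : IsOrbit x) (hi : Function.Injective x) (ε : ℝ)
    (hε : 0 < ε) : ∀ᶠ N : ℕ in atTop,
      (Real.logb 2 (4 / 3) - ε) * N ≤ fwdEven x N ∧
      (bwdEven x N : ℝ) ≤ (Real.logb 2 (4 / 3) + ε) * N := by
  have hlog2 : 0 < Real.log 2 := Real.log_pos (by norm_num)
  have hδ : 0 < ε * Real.log 2 := by positivity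
  filter_upwards [fwd_err hx hi _ hδ, bwd_err hx hi _ hδ] with N h1 h2
  rw [abs_le] at h1 h2
  have g1 := log_nonneg' hx (N : ℤ)
  have g2 := log_nonneg' hx (-(N : ℤ))
  have e : Real.logb 2 (4 / 3) * Real.log 2 = Real.log (4 / 3) := by
    rw [Real.logb, div_mul_cancel₀ _ hlog2.ne']
  have hN : (0 : ℝ) ≤ N := Nat.cast_nonneg N
  constructor
  · have h3 : (Real.logb 2 (4 / 3) - ε) * N * Real.log 2 ≤ fwdEven x N * Real.log 2 := by
      have e1 : (Real.logb 2 (4 / 3) - ε) * N * Real.log 2 =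
          N * Real.log (4 / 3) - ε * Real.log 2 * N := by
        rw [← e]; ring
      rw [e1]
      linarith [h1.2]
    exact le_of_mul_le_mul_right h3 hlog2
  · have h3 : (bwdEven x N : ℝ) * Real.log 2 ≤ (Real.logb 2 (4 / 3) + ε) * N * Real.log 2 := by
      have e1 : (Real.logb 2 (4 / 3) + ε) * N * Real.log 2 =
          N * Real.log (4 / 3) + ε * Real.log 2 * N := by
        rw [← e]; ring
      rw [e1]
      linarith [h2.2]
    exact le_of_mul_le_mul_right h3 hlog2

theorem frequencies {x : ℤ → ℕ} (hx : IsOrbit x) (hi : Function.Injective x) (t t' : ℝ)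
    (ht : ∀ ε : ℝ, 0 < ε → ∀ᶠ N : ℕ in atTop, (fwdEven x N : ℝ) ≤ (t + ε) * N)
    (ht' : ∀ ε : ℝ, 0 < ε → ∀ᶠ N : ℕ in atTop, (t' - ε) * N ≤ bwdEven x N)
    (A B : ℝ) (hA : 0 ≤ A) (hB : 0 ≤ B)
    (h1 : A * ((t - Real.logb 2 (4 / 3)) * Real.log 2) < Real.log 3)
    (h2 : B * ((Real.logb 2 (4 / 3) - t') * Real.log 2) < Real.log 3) :
    ∀ᶠ m : ℕ in atTop, (A + B) * m ≤ ((words x m).ncard : ℝ) := by
  have hlog2 : 0 < Real.log 2 := Real.log_pos (by norm_num)
  have e0 : Real.logb 2 (4 / 3) * Real.log 2 = Real.log (4 / 3) := by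
    rw [Real.logb, div_mul_cancel₀ _ hlog2.ne']
  -- t ≥ α ≥ t'
  have q1 : Real.logb 2 (4 / 3) ≤ t := by
    by_contra hcon
    push Not at hcon
    set ε : ℝ := (Real.logb 2 (4 / 3) - t) / 3 with hε
    have hε0 : 0 < ε := by rw [hε]; linarith
    obtain ⟨N, hN1, hN2, hN3⟩ := ((ht ε hε0).and ((freq_bounds hx hi ε hε0).and
      (eventually_ge_atTop 1))).exists
    have hN : (1 : ℝ) ≤ N := by exact_mod_cast hN3
    have h3 := hN2.1.trans hN1
    have h4 := le_of_mul_le_mul_right h3 (by linarith)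
    linarith
  have q2 : t' ≤ Real.logb 2 (4 / 3) := by
    by_contra hcon
    push Not at hcon
    set ε : ℝ := (t' - Real.logb 2 (4 / 3)) / 3 with hε
    have hε0 : 0 < ε := by rw [hε]; linarith
    obtain ⟨N, hN1, hN2, hN3⟩ := ((ht' ε hε0).and ((freq_bounds hx hi ε hε0).and
      (eventually_ge_atTop 1))).exists
    have hN : (1 : ℝ) ≤ N := by exact_mod_cast hN3
    have h3 := hN1.trans hN2.2
    have h4 := le_of_mul_le_mul_right h3 (by linarith)
    linarith
  set l := (t - Real.logb 2 (4 / 3)) * Real.log 2 with hl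
  set l' := (Real.logb 2 (4 / 3) - t') * Real.log 2 with hl'
  have hl0 : 0 ≤ l := mul_nonneg (by linarith) hlog2.le
  have hl0' : 0 ≤ l' := mul_nonneg (by linarith) hlog2.le
  have gr1 : ∀ δ : ℝ, 0 < δ → ∀ᶠ N : ℕ in atTop, Real.log (x N) ≤ (l + δ) * N := by
    intro δ hδ
    have hd2 : 0 < δ / 2 := by linarith
    have hd3 : 0 < δ / 2 / Real.log 2 := by positivity
    filter_upwards [fwd_err hx hi _ hd2, ht _ hd3] with N g1 g2
    rw [abs_le] at g1
    have g3 : (fwdEven x N : ℝ) * Real.log 2 ≤ (t * Real.log 2 + δ / 2) * N := by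
      have := mul_le_mul_of_nonneg_right g2 hlog2.le
      have e : (t + δ / 2 / Real.log 2) * N * Real.log 2 = (t * Real.log 2 + δ / 2) * N := by
        field_simp
      linarith
    have e1 : l = t * Real.log 2 - Real.log (4 / 3) := by rw [hl, sub_mul, e0]
    rw [e1]
    linarith [g1.2]
  have gr2 : ∀ δ : ℝ, 0 < δ → ∀ᶠ N : ℕ in atTop, Real.log (x (-(N : ℤ))) ≤ (l' + δ) * N := by
    intro δ hδ
    have hd2 : 0 < δ / 2 := by linarith
    have hd3 : 0 < δ / 2 / Real.log 2 := by positivity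
    filter_upwards [bwd_err hx hi _ hd2, ht' _ hd3] with N g1 g2
    rw [abs_le] at g1
    have g3 : (t' * Real.log 2 - δ / 2) * N ≤ (bwdEven x N : ℝ) * Real.log 2 := by
      have := mul_le_mul_of_nonneg_right g2 hlog2.le
      have e : (t' - δ / 2 / Real.log 2) * N * Real.log 2 = (t' * Real.log 2 - δ / 2) * N := by
        field_simp
      linarith
    have e1 : l' = Real.log (4 / 3) - t' * Real.log 2 := by rw [hl', sub_mul, e0]
    rw [e1]
    linarith [g1.2]
  set η : ℝ := (Real.log 3 - A * l) / (2 * (l + 1)) with hη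
  have hη0 : 0 < η := div_pos (by linarith) (by linarith)
  have h3 : (A + η) * l < Real.log 3 := by
    have e : 2 * (η * l) + 2 * η = Real.log 3 - A * l := by
      rw [hη]
      field_simp
    nlinarith
  have e1 := small_terms (fun N : ℕ => x N) (fun N => (hx _).1) l (A + η) (by linarith) hl0 gr1 h3
  have e2 := small_terms (fun N : ℕ => x (-(N : ℤ))) (fun N => (hx _).1) l' B hB hl0' gr2 h2
  obtain ⟨m0, hm0⟩ := exists_nat_gt (1 / η)
  filter_upwards [e1, e2, eventually_ge_atTop m0] with m f1 f2 f3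
  have g1 : ∀ N : ℕ, N ≤ ⌊(A + η) * m⌋₊ → x N ≤ 3 ^ m := fun N hN =>
    f1 N ((Nat.le_floor_iff (by positivity)).1 hN)
  have g2 : ∀ N : ℕ, N ≤ ⌊B * m⌋₊ → x (-(N : ℤ)) ≤ 3 ^ m := fun N hN =>
    f2 N ((Nat.le_floor_iff (by positivity)).1 hN)
  have g3 := (count_small hx hi _ _ _ g1 g2).trans (card_le hx m)
  have g4 : ((⌊(A + η) * m⌋₊ : ℕ) : ℝ) + ((⌊B * m⌋₊ : ℕ) : ℝ) + 1 ≤ ((words x m).ncard : ℝ) := by
    exact_mod_cast g3
  have g5 := Nat.lt_floor_add_one ((A + η) * (m : ℝ))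
  have g6 := Nat.lt_floor_add_one (B * (m : ℝ))
  have g7 : 1 ≤ η * m := by
    have : (m0 : ℝ) ≤ m := by exact_mod_cast f3
    have h5 : 1 / η ≤ m := by linarith
    rw [div_le_iff₀ hη0] at h5
    linarith
  nlinarith

end GItin
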