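import Mathlib
import Pool.Agent.Lib.GItin.Freq

/-!
# The excess of the even terms over their critical frequency is unbounded in both directions
-/

open Filter Topology Finset

namespace GItin

lemma logstep2 {n : ℕ} (hn : 0 < n) : |Real.log (g n) - Real.log n - cc n| ≤ 3 / 8 * (1 / (n : ℝ)) := by
  have hn0 : (0 : ℝ) < n := by exact_mod_cast hn
  have hn1 : (1 : ℝ) ≤ n := by exact_mod_cast hn
  rw [cc_eq]
  by_cases he : Even n
  · rw [if_pos he]
    have h1 : 2 * g n = 3 * n := by
      have := Nat.even_iff.1 he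
      unfold g
      rw [if_pos this]
      omega
    have h2 : (g n : ℝ) = 3 / 2 * n := by
      have : (2 : ℝ) * g n = 3 * n := by exact_mod_cast h1
      linarith
    rw [h2, Real.log_mul (by norm_num) hn0.ne']
    have e : Real.log (3 / 2) + Real.log n - Real.log n - Real.log (3 / 2) = 0 := by ring
    rw [e, abs_zero]
    positivity
  · rw [if_neg he]
    have hg0 : (0 : ℝ) < g n := by exact_mod_cast g_pos hn
    have hodd := Nat.odd_iff.1 (Nat.not_even_iff_odd.1 he)
    have h1 : 4 * g n = 3 * n + 1 ∨ (3 * n = 4 * g n + 1 ∧ 3 ≤ n) := by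
      unfold g
      rw [if_neg (by omega)]
      omega
    have e : Real.log (g n) - Real.log n - Real.log (3 / 4) = Real.log (4 * g n / (3 * n)) := by
      have e1 : Real.log (4 * g n / (3 * n)) =
          Real.log 4 + Real.log (g n) - (Real.log 3 + Real.log n) := by
        rw [Real.log_div (by positivity) (by positivity), Real.log_mul (by norm_num) hg0.ne',
          Real.log_mul (by norm_num) hn0.ne']
      have e2 : Real.log (3 / 4) = Real.log 3 - Real.log 4 :=
        Real.log_div (by norm_num) (by norm_num)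
      rw [e1, e2]
      ring
    rw [e]
    have hy : (0 : ℝ) < 4 * g n / (3 * n) := by positivity
    have h4 := Real.one_sub_inv_le_log_of_pos hy
    have h5 := Real.log_le_sub_one_of_pos hy
    have hdiv : (1 : ℝ) / n * n = 1 := by field_simp
    rcases h1 with h1 | ⟨h1, h3⟩
    · have h2 : (4 : ℝ) * g n = 3 * n + 1 := by exact_mod_cast h1
      rw [h2] at h4 h5 ⊢
      have e6 : ((3 : ℝ) * n + 1) / (3 * n) - 1 = 1 / 3 * (1 / n) := by
        field_simp
        ring
      have e7 : 0 ≤ 1 - (((3 : ℝ) * n + 1) / (3 * n))⁻¹ := by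
        rw [inv_div, sub_nonneg, div_le_one (by positivity)]
        linarith
      have hpos : (0 : ℝ) < 1 / n := by positivity
      rw [abs_le]
      constructor
      · linarith
      · rw [e6] at h5
        linarith
    · have h2 : (4 : ℝ) * g n = 3 * n - 1 := by
        have : (3 : ℝ) * n = 4 * g n + 1 := by exact_mod_cast h1
        linarith
      have hn3 : (3 : ℝ) ≤ n := by exact_mod_cast h3
      rw [h2] at h4 h5 ⊢
      have hpos : (0 : ℝ) < 1 / n := by positivity
      have hden : (0 : ℝ) < 3 * n - 1 := by linarith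
      have e6 : ((3 : ℝ) * n - 1) / (3 * n) - 1 ≤ 0 := by
        rw [sub_nonpos, div_le_one (by positivity)]
        linarith
      have e7 : -(3 / 8 * (1 / (n : ℝ))) ≤ 1 - (((3 : ℝ) * n - 1) / (3 * n))⁻¹ := by
        rw [inv_div, neg_le_sub_iff_le_add, div_le_iff₀ hden, add_mul]
        have h8 : (3 : ℝ) / 8 * (1 / n) * (3 * n - 1) = 9 / 8 - 3 / 8 * (1 / n) := by
          field_simp
          ring
        rw [h8]
        have h9 : (1 : ℝ) / n ≤ 1 / 3 := one_div_le_one_div_of_le (by norm_num) hn3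
        linarith
      rw [abs_le]
      constructor
      · linarith
      · linarith

lemma sum_inv_le (s : Finset ℕ) (hs : ∀ n ∈ s, 0 < n) :
    ∑ n ∈ s, 1 / (n : ℝ) ≤ ∑ i ∈ range s.card, 1 / ((i : ℝ) + 1) := by
  induction h : s.card generalizing s with
  | zero =>
    rw [card_eq_zero] at h
    simp [h]
  | succ k ih =>
    have hne : s.Nonempty := by
      rw [← card_pos]
      omega
    set M := s.max' hne with hM
    have hMs : M ∈ s := s.max'_mem hne
    have h1 : ∑ n ∈ s, 1 / (n : ℝ) = ∑ n ∈ s.erase M, 1 / (n : ℝ) + 1 / (M : ℝ) :=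
      (sum_erase_add s _ hMs).symm
    have h2 := ih (s.erase M) (fun n hn => hs n (mem_of_mem_erase hn)) (by
      rw [card_erase_of_mem hMs]
      omega)
    have h3 : k + 1 ≤ M := by
      have h4 : s ⊆ Icc 1 M := fun n hn => mem_Icc.2 ⟨hs n hn, s.le_max' n hn⟩
      have h5 := card_le_card h4
      rw [Nat.card_Icc] at h5
      omega
    have h4 : 1 / (M : ℝ) ≤ 1 / ((k : ℝ) + 1) := by
      apply one_div_le_one_div_of_le (by positivity)
      exact_mod_cast h3
    rw [h1, sum_range_succ]
    exact add_le_add h2 h4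

lemma window_sum {x : ℤ → ℕ} (hx : IsOrbit x) (hi : Function.Injective x) (k : ℤ) (n N : ℕ)
    (hn : n ≤ N) : ∑ i ∈ range n, 1 / (x (k + i) : ℝ) ≤ 1 + Real.log N := by
  have hinj : ∀ a ∈ range n, ∀ b ∈ range n, x (k + (a : ℕ)) = x (k + (b : ℕ)) → a = b := by
    intro a _ b _ hab
    have := hi hab
    omega
  have e : ∑ i ∈ range n, 1 / (x (k + i) : ℝ) =
      ∑ a ∈ (range n).image (fun i : ℕ => x (k + i)), 1 / (a : ℝ) := by
    rw [sum_image hinj]
  rw [e]
  have h1 := sum_inv_le ((range n).image (fun i : ℕ => x (k + i))) (by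
    intro a ha
    obtain ⟨i, _, rfl⟩ := mem_image.1 ha
    exact (hx _).1)
  rw [card_image_of_injOn (fun a ha b hb hab => hinj a ha b hb hab), card_range] at h1
  refine h1.trans ?_
  have h2 : ∑ i ∈ range n, 1 / ((i : ℝ) + 1) ≤ ∑ i ∈ range N, 1 / ((i : ℝ) + 1) :=
    sum_le_sum_of_subset_of_nonneg (range_subset_range.2 hn) (fun i _ _ => by positivity)
  refine h2.trans ?_
  have h3 := harmonic_le_one_add_log N
  have e3 : ((harmonic N : ℚ) : ℝ) = ∑ i ∈ range N, 1 / ((i : ℝ) + 1) := by
    unfold harmonic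
    push_cast
    apply sum_congr rfl
    intro i _
    rw [one_div]
  rw [← e3]
  exact h3

lemma telescope2 {x : ℤ → ℕ} (hx : IsOrbit x) (k : ℤ) (n : ℕ) :
    |Real.log (x (k + n)) - Real.log (x k) - sg x k n| ≤
      3 / 8 * ∑ i ∈ range n, 1 / (x (k + i) : ℝ) := by
  induction n with
  | zero => simp [sg]
  | succ n ih =>
    have e : x (k + (n + 1 : ℕ)) = g (x (k + n)) := by
      rw [← (hx (k + n)).2]
      push_cast
      ring_nf
    have h1 := logstep2 (hx (k + n)).1
    have e2 : sg x k (n + 1) = sg x k n + cc (x (k + n)) := by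
      unfold sg
      rw [sum_range_succ]
    rw [e, e2, sum_range_succ, mul_add]
    have e3 : Real.log (g (x (k + n))) - Real.log (x k) - (sg x k n + cc (x (k + n))) =
        (Real.log (x (k + n)) - Real.log (x k) - sg x k n) +
        (Real.log (g (x (k + n))) - Real.log (x (k + n)) - cc (x (k + n))) := by ring
    rw [e3]
    exact (abs_add_le _ _).trans (add_le_add ih h1)

lemma exists_big (y : ℕ → ℕ) (hy : ∀ i, 0 < y i) (hi : Function.Injective y) (N : ℕ) :
    ∃ k ≤ N, N < y k := by
  by_contra hcon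
  push Not at hcon
  have h1 : ((range (N + 1)).image y).card ≤ (Icc 1 N).card := by
    apply card_le_card
    intro a ha
    obtain ⟨i, hi', rfl⟩ := mem_image.1 ha
    exact mem_Icc.2 ⟨hy i, hcon i (by have := mem_range.1 hi'; omega)⟩
  rw [card_image_of_injective _ hi, card_range, Nat.card_Icc] at h1
  omega

/-- the excess of the even terms forward, and their deficiency backward, is unbounded -/
theorem excess {x : ℤ → ℕ} (hx : IsOrbit x) (hi : Function.Injective x) (N : ℕ) (hN : 1 ≤ N) :
    (∃ k ≤ N, 5 / 8 * Real.logb 2 N - Real.logb 2 (x 0) - 1 ≤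
      (fwdEven x k : ℝ) - Real.logb 2 (4 / 3) * k) ∧
    (∃ k ≤ N, 5 / 8 * Real.logb 2 N - Real.logb 2 (x 0) - 1 ≤
      Real.logb 2 (4 / 3) * k - (bwdEven x k : ℝ)) := by
  have hlog2 : 0 < Real.log 2 := Real.log_pos (by norm_num)
  have hl2 : 3 / 8 ≤ Real.log 2 := by linarith [Real.log_two_gt_d9]
  have e0 : Real.logb 2 (4 / 3) * Real.log 2 = Real.log (4 / 3) := by
    rw [Real.logb, div_mul_cancel₀ _ hlog2.ne']
  have e1 : Real.logb 2 N * Real.log 2 = Real.log N := by
    rw [Real.logb, div_mul_cancel₀ _ hlog2.ne']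
  have e2 : Real.logb 2 (x 0) * Real.log 2 = Real.log (x 0) := by
    rw [Real.logb, div_mul_cancel₀ _ hlog2.ne']
  have hNr : (0 : ℝ) < N := by exact_mod_cast hN
  constructor
  · obtain ⟨k, hk, hk2⟩ := exists_big (fun i : ℕ => x i) (fun i => (hx _).1)
      (fun a b hab => by have := hi hab; exact_mod_cast this) N
    refine ⟨k, hk, ?_⟩
    have h1 := telescope2 hx 0 k
    have h2 := window_sum hx hi 0 k N hk
    rw [zero_add, sg_fwd, abs_le] at h1
    have h3 : Real.log N ≤ Real.log (x k) := by
      apply Real.log_le_log hNr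
      exact_mod_cast hk2.le
    have h4 : (5 / 8 * Real.logb 2 N - Real.logb 2 (x 0) - 1) * Real.log 2 ≤
        ((fwdEven x k : ℝ) - Real.logb 2 (4 / 3) * k) * Real.log 2 := by
      have a1 : (5 / 8 * Real.logb 2 N - Real.logb 2 (x 0) - 1) * Real.log 2 =
          5 / 8 * Real.log N - Real.log (x 0) - Real.log 2 := by
        rw [← e1, ← e2]; ring
      have a2 : ((fwdEven x k : ℝ) - Real.logb 2 (4 / 3) * k) * Real.log 2 =
          fwdEven x k * Real.log 2 - k * Real.log (4 / 3) := by
        rw [← e0]; ring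
      rw [a1, a2]
      linarith [h1.2]
    exact le_of_mul_le_mul_right h4 hlog2
  · obtain ⟨k, hk, hk2⟩ := exists_big (fun i : ℕ => x (-(i : ℤ))) (fun i => (hx _).1)
      (fun a b hab => by have := hi hab; omega) N
    refine ⟨k, hk, ?_⟩
    have h1 := telescope2 hx (-(k : ℤ)) k
    have h2 := window_sum hx hi (-(k : ℤ)) k N hk
    rw [neg_add_cancel, sg_bwd, abs_le] at h1
    have h3 : Real.log N ≤ Real.log (x (-(k : ℤ))) := by
      apply Real.log_le_log hNr
      exact_mod_cast hk2.le
    have h4 : (5 / 8 * Real.logb 2 N - Real.logb 2 (x 0) - 1) * Real.log 2 ≤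
        (Real.logb 2 (4 / 3) * k - (bwdEven x k : ℝ)) * Real.log 2 := by
      have a1 : (5 / 8 * Real.logb 2 N - Real.logb 2 (x 0) - 1) * Real.log 2 =
          5 / 8 * Real.log N - Real.log (x 0) - Real.log 2 := by
        rw [← e1, ← e2]; ring
      have a2 : (Real.logb 2 (4 / 3) * k - (bwdEven x k : ℝ)) * Real.log 2 =
          k * Real.log (4 / 3) - bwdEven x k * Real.log 2 := by
        rw [← e0]; ring
      rw [a1, a2]
      linarith [h1.1]
    exact le_of_mul_le_mul_right h4 hlog2

end GItin
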