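import Mathlib
import Pool.Agent.Lib.GItin.Step

/-!
# The recurrence quotient of the itinerary of an infinite orbit tends to infinity
-/

open Filter Topology Finset

namespace GItin

/-- every word of length `m` of the itinerary starts in every interval of `C m` indices -/
def RecAt (x : ℤ → ℕ) (C m : ℕ) : Prop := ∀ k j : ℤ, ∃ l, j ≤ l ∧ l < j + C * m ∧
  ∀ i : ℕ, i < m → letter (x (l + i)) = letter (x (k + i))

/-- improving a lower bound for all windows by means of a good word in every block -/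
lemma improve {x : ℤ → ℕ} (C : ℕ) (δ : ℝ) (hδ : 0 < δ)
    (hgood : ∀ n0 : ℕ, ∃ n : ℕ, n0 ≤ n ∧ RecAt x C n ∧ ∃ k : ℤ, δ * n ≤ sg x k n)
    (μ K : ℝ) (hμ : μ ≤ 0) (hK : ∀ (k : ℤ) (l : ℕ), μ * l - K ≤ sg x k l) :
    ∃ K' : ℝ, ∀ (k : ℤ) (l : ℕ), (μ + δ / (2 * (C + 1))) * l - K' ≤ sg x k l := by
  have hK0 : 0 ≤ K := by
    have := hK 0 0
    simp [sg] at this
    linarith
  obtain ⟨n0, hn0⟩ := exists_nat_gt (4 * K / δ)
  obtain ⟨n, hn, hLR, k0, hW⟩ := hgood (n0 + 1)
  have hn1 : 1 ≤ n := by omega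
  have hnr : (1 : ℝ) ≤ n := by exact_mod_cast hn1
  have hKn : 4 * K ≤ δ * n := by
    have h1 : (n0 : ℝ) ≤ n := by exact_mod_cast (by omega : n0 ≤ n)
    have h2 : 4 * K / δ ≤ n := by linarith
    rw [div_le_iff₀ hδ] at h2
    linarith
  set B : ℕ := (C + 1) * n with hBdef
  have hBpos : 0 < B := by positivity
  have hBr : (B : ℝ) = (C + 1) * n := by rw [hBdef]; push_cast; ring
  set η : ℝ := δ / (2 * (C + 1)) with hη
  have hC0 : (0 : ℝ) ≤ C := Nat.cast_nonneg C
  have hη0 : 0 < η := by positivity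
  have hηB : η * B = δ * n / 2 := by
    rw [hBr, hη]
    field_simp
  have hblock : ∀ j : ℤ, (μ + η) * B ≤ sg x j B := by
    intro j
    obtain ⟨l, h1, h2, h3⟩ := hLR k0 j
    obtain ⟨a, ha⟩ := Int.eq_ofNat_of_zero_le (by omega : 0 ≤ l - j)
    have hl : l = j + a := by omega
    have ha2 : a + n ≤ B := by
      have : (a : ℤ) < C * n := by omega
      have h5 : a < C * n := by exact_mod_cast this
      rw [hBdef, add_mul, one_mul]
      omega
    obtain ⟨b, hb⟩ := Nat.exists_eq_add_of_le ha2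
    have e1 : sg x j B = sg x j a + sg x (j + a) n + sg x (j + (a + n : ℕ)) b := by
      rw [hb, sg_add, sg_add]
    have e2 : sg x (j + a) n = sg x k0 n := by
      rw [← hl]
      exact sg_congr h3
    have e3 := hK j a
    have e4 := hK (j + (a + n : ℕ)) b
    have hBr2 : (B : ℝ) = a + n + b := by rw [hb]; push_cast; ring
    have e5 : μ * n ≤ 0 := mul_nonpos_of_nonpos_of_nonneg hμ (by positivity)
    rw [e1, e2, add_mul, hηB, hBr2]
    nlinarith
  refine ⟨η * B + K, fun k l => ?_⟩
  have hq : ∀ q : ℕ, (μ + η) * (q * B : ℕ) ≤ sg x k (q * B) := by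
    intro q
    induction q with
    | zero => simp [sg]
    | succ q ih =>
      rw [Nat.succ_mul, sg_add]
      have := hblock (k + (q * B : ℕ))
      push_cast at this ih ⊢
      nlinarith
  have h1 := hq (l / B)
  have h2 := hK (k + (l / B * B : ℕ)) (l % B)
  have e : l = l / B * B + l % B := by
    rw [mul_comm]
    exact (Nat.div_add_mod l B).symm
  have h3 : sg x k l = sg x k (l / B * B) + sg x (k + (l / B * B : ℕ)) (l % B) := by
    conv_lhs => rw [e]
    exact sg_add _ _ _ _
  have h4 : ((l % B : ℕ) : ℝ) ≤ B := by exact_mod_cast (Nat.mod_lt l hBpos).le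
  have h5 : (l : ℝ) = ((l / B * B : ℕ) : ℝ) + ((l % B : ℕ) : ℝ) := by exact_mod_cast e
  rw [h3, h5]
  have h6 : η * ((l % B : ℕ) : ℝ) ≤ η * B := mul_le_mul_of_nonneg_left h4 hη0.le
  nlinarith

lemma sg_le (x : ℤ → ℕ) (k : ℤ) (n : ℕ) : sg x k n ≤ n * (1 / 2) := by
  have h7 : Real.log (3 / 2) ≤ 1 / 2 := by
    have := Real.log_le_sub_one_of_pos (show (0 : ℝ) < 3 / 2 by norm_num)
    linarith
  unfold sg
  refine (sum_le_card_nsmul _ _ _ (fun i _ => (cc_le _).trans h7)).trans ?_
  rw [card_range, nsmul_eq_mul]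

theorem no_rec {x : ℤ → ℕ} (hx : IsOrbit x) (hi : Function.Injective x) (C : ℕ)
    (hfr : ∀ m0 : ℕ, ∃ m : ℕ, m0 ≤ m ∧ RecAt x C m) : False := by
  have hC : 1 ≤ C := by
    obtain ⟨m, -, hm⟩ := hfr 0
    obtain ⟨l, h1, h2, -⟩ := hm 0 0
    by_contra h
    have : C = 0 := by omega
    subst this
    simp at h2
    omega
  have hCr : (1 : ℝ) ≤ C := by exact_mod_cast hC
  have hlog3 : 1 < Real.log 3 := by
    rw [Real.lt_log_iff_exp_lt (by norm_num)]
    linarith [Real.exp_one_lt_d9]
  -- the complexity is linear at the good scales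
  have hp : ∀ m : ℕ, RecAt x C m → (words x m).ncard ≤ C * m := by
    intro m hm
    have h1 : words x m ⊆ (fun k : ℕ => fun i : Fin m => letter (x ((k : ℤ) + i))) ''
        (Set.Iio (C * m)) := by
      rintro _ ⟨k, rfl⟩
      obtain ⟨l, h1, h2, h3⟩ := hm k 0
      obtain ⟨a, rfl⟩ := Int.eq_ofNat_of_zero_le h1
      refine ⟨a, ?_, ?_⟩
      · rw [Set.mem_Iio]
        have : (a : ℤ) < C * m := by omega
        exact_mod_cast this
      · funext i
        exact h3 i i.2
    have h2 := Set.ncard_le_ncard h1 ((Set.finite_Iio _).image _)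
    refine h2.trans ((Set.ncard_image_le (Set.finite_Iio _)).trans ?_)
    rw [← Finset.coe_Iio, Set.ncard_coe_finset, Nat.card_Iio]
  -- a large term soon
  have hbig : ∀ m : ℕ, RecAt x C m → ∃ k : ℕ, k ≤ C * m ∧ 3 ^ m < x k := by
    intro m hm
    by_contra hcon
    push Not at hcon
    have h1 := count_small hx hi (C * m) 0 (3 ^ m) hcon (by
      intro N hN
      have : N = 0 := by omega
      subst this
      simpa using hcon 0 (Nat.zero_le _))
    have h2 := (h1.trans (card_le hx m)).trans (hp m hm)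
    omega
  set δ : ℝ := 1 / (4 * C) with hδ
  have hδ0 : 0 < δ := by positivity
  have hδC : C * δ = 1 / 4 := by
    rw [hδ]
    field_simp
  have hgood : ∀ n0 : ℕ, ∃ n : ℕ, n0 ≤ n ∧ RecAt x C n ∧ ∃ k : ℤ, δ * n ≤ sg x k n := by
    intro n0
    obtain ⟨B, hB⟩ : ∃ B : ℕ, B = 8 * C := ⟨_, rfl⟩
    have hBpos : 0 < B := by omega
    have hBr : (B : ℝ) = 8 * C := by rw [hB]; push_cast; ring
    obtain ⟨m1, hm1⟩ := exists_nat_gt (8 * (Real.log (x 0) + B))
    obtain ⟨m, hm, hR⟩ := hfr (m1 + n0 + 1)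
    refine ⟨m, by omega, hR, ?_⟩
    by_contra hcon
    push Not at hcon
    obtain ⟨k, hk1, hk2⟩ := hbig m hR
    have h1 := err_bd hx hi B hBpos 0 k
    rw [zero_add, abs_le] at h1
    have h2 : (m : ℝ) * Real.log 3 ≤ Real.log (x k) := by
      rw [← Real.log_pow]
      apply Real.log_le_log (by positivity)
      exact_mod_cast hk2.le
    have hkr : (k : ℝ) ≤ C * m := by exact_mod_cast hk1
    have h3 : (k : ℝ) / B ≤ m / 8 := by
      rw [hBr, div_le_iff₀ (by positivity)]
      have : (m : ℝ) / 8 * (8 * C) = C * m := by ring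
      rw [this]
      exact hkr
    have hm1r : (m1 : ℝ) ≤ m := by exact_mod_cast (by omega : m1 ≤ m)
    have hmpos : (0 : ℝ) < m := by exact_mod_cast (by omega : 0 < m)
    have h6 : (m : ℝ) < m * Real.log 3 := by nlinarith
    -- the sum over the full blocks
    have hq : ∀ q : ℕ, sg x 0 (q * m) ≤ q * (δ * m) := by
      intro q
      induction q with
      | zero => simp [sg]
      | succ q ih =>
        rw [Nat.succ_mul, sg_add]
        have := hcon (0 + (q * m : ℕ))
        push_cast at this ih ⊢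
        linarith
    have e : k = k / m * m + k % m := by
      rw [mul_comm]
      exact (Nat.div_add_mod k m).symm
    have h7 : sg x 0 k = sg x 0 (k / m * m) + sg x (0 + (k / m * m : ℕ)) (k % m) := by
      conv_lhs => rw [e]
      exact sg_add _ _ _ _
    have h8 := hq (k / m)
    have h9 := sg_le x (0 + (k / m * m : ℕ)) (k % m)
    have h10 : ((k / m : ℕ) : ℝ) ≤ C := by
      have : k / m ≤ C := Nat.div_le_of_le_mul (by rw [mul_comm]; exact hk1)
      exact_mod_cast this
    have h11 : ((k % m : ℕ) : ℝ) ≤ m := by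
      exact_mod_cast (Nat.mod_lt k (by omega : 0 < m)).le
    have h12 : ((k / m : ℕ) : ℝ) * (δ * m) ≤ C * (δ * m) :=
      mul_le_mul_of_nonneg_right h10 (by positivity)
    have h13 : (C : ℝ) * (δ * m) = m / 4 := by
      rw [← mul_assoc, hδC]
      ring
    linarith [h1.2]
  set η : ℝ := δ / (2 * (C + 1)) with hη
  have hη0 : 0 < η := by positivity
  -- a positive mean lower bound is impossible
  have hno : ∀ μ K : ℝ, 0 < μ → ¬ ∀ (k : ℤ) (l : ℕ), μ * l - K ≤ sg x k l := by
    intro μ K hμ hK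
    obtain ⟨B, hB⟩ := exists_nat_gt (2 / μ)
    have hB0 : (0 : ℝ) < B := lt_trans (by positivity) hB
    have hBpos : 0 < B := by exact_mod_cast hB0
    obtain ⟨l, hl⟩ := exists_nat_gt (2 / μ * (Real.log (x 0) + K + B))
    have h1 := err_bd hx hi B hBpos (-(l : ℤ)) l
    rw [neg_add_cancel, abs_le] at h1
    have h2 := hK (-(l : ℤ)) l
    have h3 : (1 : ℝ) ≤ x (-(l : ℤ)) := by exact_mod_cast (hx _).1
    have h4 := Real.log_nonneg h3
    have h5 : (l : ℝ) / B ≤ μ / 2 * l := by
      rw [div_le_iff₀ hB0]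
      have h6 : 1 ≤ μ / 2 * B := by
        have := (div_lt_iff₀ hμ).1 hB
        linarith
      have : (0 : ℝ) ≤ l := Nat.cast_nonneg l
      nlinarith
    have h7 : Real.log (x 0) + K + B < μ / 2 * l := by
      have := mul_lt_mul_of_pos_left hl (show 0 < μ / 2 by positivity)
      have e : μ / 2 * (2 / μ * (Real.log (x 0) + K + B)) = Real.log (x 0) + K + B := by
        field_simp
      linarith
    linarith [h1.1]
  have hstep : ∀ j : ℕ, ∃ K : ℝ, ∀ (k : ℤ) (l : ℕ), (Real.log (3 / 4) + j * η) * l - K ≤ sg x k l := by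
    intro j
    induction j with
    | zero =>
      refine ⟨0, fun k l => ?_⟩
      have h6 : (l : ℝ) * Real.log (3 / 4) ≤ sg x k l := by
        unfold sg
        refine le_trans ?_ (card_nsmul_le_sum _ _ _ (fun i _ => cc_ge _))
        rw [card_range, nsmul_eq_mul]
      simp only [Nat.cast_zero, zero_mul, add_zero, sub_zero]
      linarith
    | succ j ih =>
      obtain ⟨K, hK⟩ := ih
      rcases le_or_gt (Real.log (3 / 4) + j * η) 0 with h | h
      · obtain ⟨K', hK'⟩ := improve C δ hδ0 hgood _ K h hK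
        refine ⟨K', fun k l => ?_⟩
        have := hK' k l
        push_cast
        have e : Real.log (3 / 4) + (j + 1) * η = Real.log (3 / 4) + j * η + η := by ring
        rw [e]
        exact this
      · exact absurd hK (hno _ K h)
  obtain ⟨j, hj⟩ := exists_nat_gt (-Real.log (3 / 4) / η)
  obtain ⟨K, hK⟩ := hstep j
  refine hno _ K ?_ hK
  rw [div_lt_iff₀ hη0] at hj
  linarith

/-- for large `m` some word of length `m` is missing in some interval of `C m` indices -/
theorem recurrence {x : ℤ → ℕ} (hx : IsOrbit x) (hi : Function.Injective x) (C : ℕ) :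
    ∀ᶠ m : ℕ in atTop, ∃ k j : ℤ, ∀ l, j ≤ l → l < j + C * m →
      ∃ i : ℕ, i < m ∧ letter (x (l + i)) ≠ letter (x (k + i)) := by
  by_contra hcon
  apply no_rec hx hi C
  intro m0
  rw [eventually_atTop] at hcon
  push Not at hcon
  obtain ⟨m, hm, h⟩ := hcon m0
  exact ⟨m, hm, fun k j => h k j⟩

end GItin
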