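import Mathlib
import Pool.Agent.Lib.GItin.Core

/-!
# The words of length `m` correspond to the residues modulo `3 ^ m`
-/

namespace GItin

lemma step_back (m a b : ℕ) (hab : g a ≡ g b [MOD 3 ^ (m + 1)]) :
    letter a = letter b ∧ a ≡ b [MOD 3 ^ m] := by
  have h3 : g a % 3 = g b % 3 := by
    have h1 : (3 : ℕ) ∣ 3 ^ (m + 1) := dvd_pow_self 3 (by omega)
    exact Nat.ModEq.of_dvd h1 hab
  have key : ∀ (c d s t e : ℕ), g a = 3 * s + e → g b = 3 * t + e → a = c * s + d →
      b = c * t + d → a ≡ b [MOD 3 ^ m] := by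
    intro c d s t e h1 h2 h4 h5
    rw [h1, h2] at hab
    have h6 := Nat.ModEq.add_right_cancel' e hab
    rw [pow_succ, mul_comm (3 ^ m) 3] at h6
    have h7 := Nat.ModEq.mul_left_cancel' (by norm_num) h6
    rw [h4, h5]
    exact Nat.ModEq.add_right d (Nat.ModEq.mul_left c h7)
  by_cases ha : a % 2 = 0
  · have h1 : g a = 3 * (a / 2) + 0 := by unfold g; rw [if_pos ha]; omega
    have hb : b % 2 = 0 := by
      by_contra hb
      have : g b % 3 ≠ 0 := by
        unfold g
        rw [if_neg hb]
        omega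
      omega
    have h2 : g b = 3 * (b / 2) + 0 := by unfold g; rw [if_pos hb]; omega
    refine ⟨?_, key 2 0 _ _ 0 h1 h2 (by omega) (by omega)⟩
    unfold letter
    rw [if_pos ha, if_pos hb]
  · rcases (by omega : a % 4 = 1 ∨ a % 4 = 3) with h4 | h4
    · have h1 : g a = 3 * (a / 4) + 1 := by unfold g; rw [if_neg ha]; omega
      have hb : b % 4 = 1 := by
        by_contra hb
        have : g b % 3 ≠ 1 := by
          unfold g
          split_ifs <;> omega
        omega
      have hb2 : ¬ b % 2 = 0 := by omega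
      have h2 : g b = 3 * (b / 4) + 1 := by unfold g; rw [if_neg hb2]; omega
      refine ⟨?_, key 4 1 _ _ 1 h1 h2 (by omega) (by omega)⟩
      unfold letter
      rw [if_neg ha, if_neg hb2, h4, hb]
    · have h1 : g a = 3 * (a / 4) + 2 := by unfold g; rw [if_neg ha]; omega
      have hb : b % 4 = 3 := by
        by_contra hb
        have : g b % 3 ≠ 2 := by
          unfold g
          split_ifs <;> omega
        omega
      have hb2 : ¬ b % 2 = 0 := by omega
      have h2 : g b = 3 * (b / 4) + 2 := by unfold g; rw [if_neg hb2]; omega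
      refine ⟨?_, key 4 3 _ _ 2 h1 h2 (by omega) (by omega)⟩
      unfold letter
      rw [if_neg ha, if_neg hb2, h4, hb]

lemma mod_word {x : ℤ → ℕ} (hx : IsOrbit x) (m : ℕ) : ∀ k k' : ℤ,
    x (k + m) ≡ x (k' + m) [MOD 3 ^ m] →
    ∀ i : ℕ, i < m → letter (x (k + i)) = letter (x (k' + i)) := by
  induction m with
  | zero =>
    intro k k' _ i hi
    omega
  | succ m ih =>
    intro k k' h i hi
    have e1 : x (k + (m + 1 : ℕ)) = g (x (k + m)) := by
      rw [← (hx (k + m)).2]
      push_cast
      ring_nf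
    have e2 : x (k' + (m + 1 : ℕ)) = g (x (k' + m)) := by
      rw [← (hx (k' + m)).2]
      push_cast
      ring_nf
    rw [e1, e2] at h
    obtain ⟨h1, h2⟩ := step_back m _ _ h
    rcases Nat.lt_succ_iff_lt_or_eq.1 hi with h3 | h3
    · exact ih k k' h2 i h3
    · rw [h3]
      exact h1

lemma ncard_range_le {α β : Type*} (f : ℤ → α) (h : ℤ → β) (hf : (Set.range h).Finite)
    (H : ∀ k k', h k = h k' → f k = f k') : (Set.range f).ncard ≤ (Set.range h).ncard := by
  classical
  choose! κ hκ using (fun n (hn : n ∈ Set.range f) => hn)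
  refine Set.ncard_le_ncard_of_injOn (fun n => h (κ n)) ?_ ?_ hf
  · intro n _
    exact ⟨κ n, rfl⟩
  · intro a ha b hb hab
    have := H _ _ hab
    rwa [hκ a ha, hκ b hb] at this

/-- the number of words of length `m` is the number of classes modulo `3 ^ m` met by the orbit -/
theorem card_eq {x : ℤ → ℕ} (hx : IsOrbit x) (m : ℕ) :
    (words x m).ncard = (Set.range fun k : ℤ => x k % 3 ^ m).ncard := by
  have hfin : (Set.range fun k : ℤ => x k % 3 ^ m).Finite := by
    apply (Set.finite_Iio (3 ^ m)).subset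
    rintro _ ⟨k, rfl⟩
    exact Nat.mod_lt _ (by positivity)
  have hfin2 : (Set.range fun k : ℤ => x (k + m) % 3 ^ m).Finite := by
    apply hfin.subset
    rintro _ ⟨k, rfl⟩
    exact ⟨k + m, rfl⟩
  have e : (Set.range fun k : ℤ => x k % 3 ^ m) = (Set.range fun k : ℤ => x (k + m) % 3 ^ m) := by
    ext a
    constructor
    · rintro ⟨k, rfl⟩
      exact ⟨k - m, by simp⟩
    · rintro ⟨k, rfl⟩
      exact ⟨k + m, rfl⟩
  rw [e]
  apply le_antisymm
  · refine ncard_range_le _ _ hfin2 ?_
    intro k k' h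
    funext i
    exact mod_word hx m k k' h i i.2
  · refine ncard_range_le _ _ (words_finite x m) ?_
    intro k k' h
    exact word_mod hx k k' m (fun i hi => congrFun h ⟨i, hi⟩)

end GItin
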